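import Pool.Agent.TH703.HU.Stm

/-!
# Project HU, piece C1: the weight for large `m`
-/

set_option autoImplicit false

open MeasureTheory Set Metric Filter Topology
open scoped ENNReal Real

noncomputable section

namespace Pool.Agent.TH527.HU

open Pool.Agent.TH304.MI Pool.Agent.TH703.HU

/-- The one-dimensional density. -/
def ff (m : ℕ) (u : ℝ) : ℝ := (1 - 4 * u ^ 2) ^ m

lemma ff_cont (m : ℕ) : Continuous (ff m) := by
  unfold ff; fun_prop

lemma ff_int (m : ℕ) (a b : ℝ) : IntervalIntegrable (ff m) volume a b :=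
  (ff_cont m).intervalIntegrable a b

lemma base_nonneg {u : ℝ} (h : |u| ≤ 1 / 2) : 0 ≤ 1 - 4 * u ^ 2 := by
  have h2 : u ^ 2 ≤ (1 / 2) ^ 2 := sq_le_sq' (by linarith [neg_abs_le u]) (by linarith [le_abs_self u])
  nlinarith

lemma ff_nonneg {m : ℕ} {u : ℝ} (h : |u| ≤ 1 / 2) : 0 ≤ ff m u :=
  pow_nonneg (base_nonneg h) m

lemma ff_neg (m : ℕ) (u : ℝ) : ff m (-u) = ff m u := by simp [ff]

lemma ff_le {m : ℕ} {δ u : ℝ} (h0 : 0 ≤ δ) (h1 : δ ≤ u) (h2 : u ≤ 1 / 2) :
    ff m u ≤ (1 - 4 * δ ^ 2) ^ m := by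
  have hu : |u| ≤ 1 / 2 := by rw [abs_of_nonneg (h0.trans h1)]; exact h2
  refine pow_le_pow_left₀ (base_nonneg hu) ?_ m
  nlinarith

lemma ff_le_one {m : ℕ} {u : ℝ} (h : |u| ≤ 1 / 2) : ff m u ≤ 1 := by
  refine pow_le_one₀ (base_nonneg h) ?_
  nlinarith [sq_nonneg u]

lemma refl_int (m : ℕ) (a b : ℝ) : ∫ u in (-b)..(-a), ff m u = ∫ u in a..b, ff m u := by
  have := intervalIntegral.integral_comp_neg (a := a) (b := b) (ff m)
  rw [← this]
  exact intervalIntegral.integral_congr (fun u _ => ff_neg m u)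

lemma NN_eq (m : ℕ) : NN m = 2 * ∫ u in (0 : ℝ)..(1 / 2), ff m u := by
  have h1 : NN m = ∫ u in (-(1 / 2) : ℝ)..(1 / 2), ff m u := rfl
  have h2 := intervalIntegral.integral_add_adjacent_intervals (ff_int m (-(1 / 2)) 0)
    (ff_int m 0 (1 / 2))
  have h3 := refl_int m 0 (1 / 2)
  rw [neg_zero] at h3
  rw [h1, ← h2, h3]; ring

lemma mono_int {m : ℕ} {a b c d : ℝ} (h1 : -(1 / 2) ≤ c) (hca : c ≤ a) (hab : a ≤ b)
    (hbd : b ≤ d) (h2 : d ≤ 1 / 2) : ∫ u in a..b, ff m u ≤ ∫ u in c..d, ff m u := by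
  refine intervalIntegral.integral_mono_interval hca hab hbd ?_ (ff_int m c d)
  refine (ae_restrict_iff' measurableSet_Ioc).2 (Eventually.of_forall fun u hu => ?_)
  exact ff_nonneg (abs_le.2 ⟨by linarith [hu.1], by linarith [hu.2]⟩)

lemma int_nonneg {m : ℕ} {a b : ℝ} (h1 : -(1 / 2) ≤ a) (hab : a ≤ b) (h2 : b ≤ 1 / 2) :
    0 ≤ ∫ u in a..b, ff m u :=
  intervalIntegral.integral_nonneg hab fun u hu =>
    ff_nonneg (abs_le.2 ⟨by linarith [hu.1], by linarith [hu.2]⟩)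

lemma tail {m : ℕ} {δ a b : ℝ} (h0 : 0 ≤ δ) (h1 : δ ≤ a) (hab : a ≤ b) (h2 : b ≤ 1 / 2) :
    ∫ u in a..b, ff m u ≤ 1 / 2 * (1 - 4 * δ ^ 2) ^ m := by
  have hr : 0 ≤ (1 - 4 * δ ^ 2) ^ m := pow_nonneg (base_nonneg (by
    rw [abs_of_nonneg h0]; linarith)) m
  have h3 : ∫ u in a..b, ff m u ≤ ∫ _u in a..b, (1 - 4 * δ ^ 2) ^ m :=
    intervalIntegral.integral_mono_on hab (ff_int m a b) (by simp) fun u hu =>
      ff_le h0 (h1.trans hu.1) (hu.2.trans h2)
  rw [intervalIntegral.integral_const, smul_eq_mul] at h3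
  exact h3.trans (mul_le_mul_of_nonneg_right (by linarith) hr)

/-- Bernoulli. -/
lemma bern {m : ℕ} (hm : 4 ≤ m) {u : ℝ} (hu : m * u ^ 2 ≤ 1) :
    (1 - m * u ^ 2) ^ 4 ≤ ff m u := by
  have hm' : (4 : ℝ) ≤ m := by exact_mod_cast hm
  have hu2 : 4 * u ^ 2 ≤ 1 := by nlinarith [sq_nonneg u]
  have h1 := one_add_mul_self_le_rpow_one_add (s := -(4 * u ^ 2)) (p := (m : ℝ) / 4)
    (by linarith) (by linarith)
  have h2 : 1 + (m : ℝ) / 4 * (-(4 * u ^ 2)) = 1 - m * u ^ 2 := by ring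
  rw [h2] at h1
  have h3 : 0 ≤ 1 + -(4 * u ^ 2) := by linarith
  have h4 : ((1 + -(4 * u ^ 2)) ^ ((m : ℝ) / 4)) ^ 4 = ff m u := by
    rw [← Real.rpow_natCast, ← Real.rpow_mul h3]
    have : (m : ℝ) / 4 * ((4 : ℕ) : ℝ) = (m : ℝ) := by push_cast; ring
    rw [this, Real.rpow_natCast]
    rfl
  rw [← h4]
  exact pow_le_pow_left₀ (by linarith) h1 4

lemma low {m : ℕ} (hm : 4 ≤ m) : 2 / 5 / √m ≤ ∫ u in (0 : ℝ)..(1 / √m), ff m u := by
  have hm' : (4 : ℝ) ≤ m := by exact_mod_cast hm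
  have hs : 0 < √(m : ℝ) := Real.sqrt_pos.2 (by linarith)
  have hss : √(m : ℝ) ^ 2 = m := Real.sq_sqrt (by linarith)
  set c : ℝ := 1 / √m with hc
  have hc0 : 0 < c := by positivity
  have hmc : (m : ℝ) * c ^ 2 = 1 := by
    rw [hc, div_pow, one_pow, hss]; field_simp
  have h1 : ∫ u in (0 : ℝ)..c, (1 - (m : ℝ) * u ^ 2) ^ 4 ≤ ∫ u in (0 : ℝ)..c, ff m u := by
    refine intervalIntegral.integral_mono_on hc0.le
      ((by fun_prop : Continuous fun u : ℝ => (1 - (m : ℝ) * u ^ 2) ^ 4).intervalIntegrable _ _)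
      (ff_int m 0 c) fun u hu => bern hm ?_
    have : u ^ 2 ≤ c ^ 2 := pow_le_pow_left₀ hu.1 hu.2 2
    nlinarith
  have h2 : ∫ u in (0 : ℝ)..c, (1 - (m : ℝ) * u ^ 2) ^ 4 = c * (128 / 315) := by
    have hd : ∀ u ∈ uIcc (0 : ℝ) c, HasDerivAt (fun u : ℝ => u - 4 / 3 * m * u ^ 3 +
        6 / 5 * (m : ℝ) ^ 2 * u ^ 5 - 4 / 7 * (m : ℝ) ^ 3 * u ^ 7 + 1 / 9 * (m : ℝ) ^ 4 * u ^ 9)
        ((1 - (m : ℝ) * u ^ 2) ^ 4) u := by
      intro u _
      have e1 := (hasDerivAt_id u)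
      have e3 := ((hasDerivAt_pow 3 u).const_mul (4 / 3 * (m : ℝ)))
      have e5 := ((hasDerivAt_pow 5 u).const_mul (6 / 5 * (m : ℝ) ^ 2))
      have e7 := ((hasDerivAt_pow 7 u).const_mul (4 / 7 * (m : ℝ) ^ 3))
      have e9 := ((hasDerivAt_pow 9 u).const_mul (1 / 9 * (m : ℝ) ^ 4))
      have := (((e1.sub e3).add e5).sub e7).add e9
      refine this.congr_deriv ?_
      norm_num
      ring
    rw [intervalIntegral.integral_eq_sub_of_hasDerivAt hd
      ((by fun_prop : Continuous fun u : ℝ => (1 - (m : ℝ) * u ^ 2) ^ 4).intervalIntegrable _ _)]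
    have a3 : (m : ℝ) * c ^ 3 = c := by
      calc (m : ℝ) * c ^ 3 = (m * c ^ 2) * c := by ring
        _ = c := by rw [hmc]; ring
    have a5 : (m : ℝ) ^ 2 * c ^ 5 = c := by
      calc (m : ℝ) ^ 2 * c ^ 5 = (m * c ^ 2) ^ 2 * c := by ring
        _ = c := by rw [hmc]; ring
    have a7 : (m : ℝ) ^ 3 * c ^ 7 = c := by
      calc (m : ℝ) ^ 3 * c ^ 7 = (m * c ^ 2) ^ 3 * c := by ring
        _ = c := by rw [hmc]; ring
    have a9 : (m : ℝ) ^ 4 * c ^ 9 = c := by
      calc (m : ℝ) ^ 4 * c ^ 9 = (m * c ^ 2) ^ 4 * c := by ring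
        _ = c := by rw [hmc]; ring
    have : c - 4 / 3 * m * c ^ 3 + 6 / 5 * (m : ℝ) ^ 2 * c ^ 5 - 4 / 7 * (m : ℝ) ^ 3 * c ^ 7 +
        1 / 9 * (m : ℝ) ^ 4 * c ^ 9 = c - 4 / 3 * (m * c ^ 3) + 6 / 5 * ((m : ℝ) ^ 2 * c ^ 5) -
        4 / 7 * ((m : ℝ) ^ 3 * c ^ 7) + 1 / 9 * ((m : ℝ) ^ 4 * c ^ 9) := by ring
    rw [this, a3, a5, a7, a9]
    norm_num
    ring
  have h3 : 2 / 5 / √(m : ℝ) = c * (2 / 5) := by rw [hc]; ring
  rw [h3]
  refine le_trans ?_ (h2 ▸ h1)
  exact mul_le_mul_of_nonneg_left (by norm_num) hc0.le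

lemma low' {m : ℕ} (hm : 400 ≤ m) {β : ℝ} (hβ : 1 / 20 ≤ β) (hβ' : β ≤ 1 / 2) :
    2 / 5 / √m ≤ ∫ u in (0 : ℝ)..β, ff m u := by
  have hm' : (400 : ℝ) ≤ m := by exact_mod_cast hm
  have hs : 20 ≤ √(m : ℝ) := Real.le_sqrt_of_sq_le (by norm_num; exact_mod_cast hm)
  refine (low (by omega)).trans (mono_int (by norm_num) le_rfl (by positivity) ?_ hβ')
  refine le_trans ?_ hβ
  rw [div_le_div_iff₀ (by linarith) (by norm_num)]
  linarith

lemma NN_low {m : ℕ} (hm : 400 ≤ m) : 4 / 5 / √m ≤ NN m := by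
  have := low' hm (β := 1 / 2) (by norm_num) le_rfl
  rw [NN_eq]
  have h : 4 / 5 / √(m : ℝ) = 2 * (2 / 5 / √(m : ℝ)) := by ring
  rw [h]; linarith

/-- Exponential smallness. -/
lemma small {r : ℝ} (h0 : 0 ≤ r) (h1 : r < 1) {η : ℝ} (hη : 0 < η) :
    ∃ m₀ : ℕ, 400 ≤ m₀ ∧ ∀ m : ℕ, m₀ ≤ m → r ^ m ≤ η * NN m := by
  have ht := tendsto_self_mul_const_pow_of_lt_one h0 h1
  have he : ∀ᶠ m : ℕ in atTop, (m : ℝ) * r ^ m < η * (4 / 5) :=
    ht.eventually (gt_mem_nhds (by positivity))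
  obtain ⟨m₀, h⟩ := eventually_atTop.1 he
  refine ⟨max m₀ 400, le_max_right _ _, fun m hm => ?_⟩
  have hm4 : 400 ≤ m := (le_max_right _ _).trans hm
  have hm1 : (1 : ℝ) ≤ m := by exact_mod_cast (by omega : 1 ≤ m)
  have hs : 0 < √(m : ℝ) := Real.sqrt_pos.2 (by linarith)
  have hs2 : √(m : ℝ) ≤ m := by
    rw [Real.sqrt_le_left (by linarith)]; nlinarith
  have h2 := h m ((le_max_left _ _).trans hm)
  have h3 : √(m : ℝ) * r ^ m ≤ η * (4 / 5) :=
    (mul_le_mul_of_nonneg_right hs2 (pow_nonneg h0 m)).trans h2.le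
  have h4 : r ^ m ≤ η * (4 / 5 / √(m : ℝ)) := by
    rw [← mul_div_assoc, le_div_iff₀ hs]; linarith [mul_comm (√(m : ℝ)) (r ^ m)]
  exact h4.trans (mul_le_mul_of_nonneg_left (NN_low hm4) hη.le)

/-- First claim, first half. -/
lemma part_a {m : ℕ} (hN : 0 < NN m) {δ : ℝ} (hδ : 0 < δ)
    (hs : (1 - 4 * δ ^ 2) ^ m ≤ δ * NN m) {x : ℂ}
    (h1 : |x.re| ≤ 1 / 2 - δ) (h2 : |x.im| ≤ 1 / 2 - δ) : 1 - δ ≤ wt m x := by
  have hx := abs_nonneg x.re
  have hy := abs_nonneg x.im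
  unfold wt
  rw [max_eq_right (by linarith), le_div_iff₀ hN]
  have e1 := intervalIntegral.integral_add_adjacent_intervals
    (ff_int m (-(1 / 2)) (|x.re| - 1 / 2)) (ff_int m (|x.re| - 1 / 2) (1 / 2 - |x.im|))
  have e2 := intervalIntegral.integral_add_adjacent_intervals
    (ff_int m (-(1 / 2)) (1 / 2 - |x.im|)) (ff_int m (1 / 2 - |x.im|) (1 / 2))
  have t1 := tail (m := m) hδ.le (a := 1 / 2 - |x.im|) (b := 1 / 2) (by linarith) (by linarith)
    le_rfl
  have t2 := tail (m := m) hδ.le (a := 1 / 2 - |x.re|) (b := 1 / 2) (by linarith) (by linarith)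
    le_rfl
  have t3 := refl_int m (1 / 2 - |x.re|) (1 / 2)
  rw [show -(1 / 2 - |x.re|) = |x.re| - 1 / 2 by ring] at t3
  have hNN : NN m = ∫ u in (-(1 / 2) : ℝ)..(1 / 2), ff m u := rfl
  change (1 - δ) * NN m ≤ ∫ u in (|x.re| - 1 / 2)..(1 / 2 - |x.im|), ff m u
  nlinarith

/-- First claim, second half (real part). -/
lemma part_b {m : ℕ} (hN : 0 < NN m) {δ : ℝ} (hδ : 0 < δ)
    (hs : |1 - 4 * δ ^ 2| ^ m ≤ δ * NN m) {x : ℂ}
    (h1 : 1 / 2 + δ ≤ |x.re|) : wt m x ≤ δ := by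
  have hy := abs_nonneg x.im
  unfold wt
  rcases le_total (1 / 2 - |x.im|) (|x.re| - 1 / 2) with h | h
  · rw [max_eq_left h, intervalIntegral.integral_same, zero_div]; exact hδ.le
  · rw [max_eq_right h, div_le_iff₀ hN]
    have t1 := tail (m := m) hδ.le (a := |x.re| - 1 / 2) (b := 1 / 2 - |x.im|) (by linarith) h
      (by linarith)
    have hδ2 : |δ| ≤ 1 / 2 := by rw [abs_of_pos hδ]; linarith
    have hb := base_nonneg hδ2
    rw [abs_of_nonneg hb] at hs
    have hp := pow_nonneg hb m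
    change (∫ u in (|x.re| - 1 / 2)..(1 / 2 - |x.im|), ff m u) ≤ δ * NN m
    linarith

/-- The middle claims. -/
lemma part_c {m : ℕ} (hN : 0 < NN m) {η : ℝ} (hη : 0 ≤ η) (hη' : η ≤ 1 / 10) {x : ℂ}
    (h1 : |x.re| ≤ 1 / 2 + η) (h2 : |x.im| ≤ 2 / 5) :
    1 / 2 - (η + 1 / 2 * (1 - 4 * (1 / 10) ^ 2) ^ m) / NN m ≤ wt m x := by
  have hx := abs_nonneg x.re
  have hy := abs_nonneg x.im
  unfold wt
  rw [max_eq_right (by linarith), sub_le_iff_le_add, ← add_div, le_div_iff₀ hN]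
  have e1 := intervalIntegral.integral_add_adjacent_intervals
    (ff_int m 0 η) (ff_int m η (1 / 10))
  have e2 := intervalIntegral.integral_add_adjacent_intervals
    (ff_int m 0 (1 / 10)) (ff_int m (1 / 10) (1 / 2))
  have t1 := tail (m := m) (δ := 1 / 10) (a := 1 / 10) (b := 1 / 2) (by norm_num) le_rfl
    (by norm_num) le_rfl
  have t2 : ∫ u in (0 : ℝ)..η, ff m u ≤ η := by
    have := intervalIntegral.integral_mono_on hη (ff_int m 0 η) (by simp)
      (fun u hu => ff_le_one (m := m) (abs_le.2 ⟨by linarith [hu.1], by linarith [hu.2]⟩))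
      (g := fun _ => (1 : ℝ))
    simpa using this
  have t3 : ∫ u in η..(1 / 10), ff m u ≤ ∫ u in (|x.re| - 1 / 2)..(1 / 2 - |x.im|), ff m u :=
    mono_int (by linarith) (by linarith) hη' (by linarith) (by linarith)
  have t4 := NN_eq m
  change 1 / 2 * NN m ≤ (∫ u in (|x.re| - 1 / 2)..(1 / 2 - |x.im|), ff m u) +
    (η + 1 / 2 * (1 - 4 * (1 / 10) ^ 2) ^ m)
  linarith


/-- Log-concavity. -/
lemma logc {m : ℕ} {s w w' : ℝ} (hs : 0 ≤ s) (hw : 0 ≤ w) (hww : w ≤ w') (h : s + w' ≤ 1 / 2) :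
    ff m (s + w') * ff m w ≤ ff m (s + w) * ff m w' := by
  unfold ff
  rw [← mul_pow, ← mul_pow]
  refine pow_le_pow_left₀ (mul_nonneg (base_nonneg ?_) (base_nonneg ?_)) ?_ m
  · rw [abs_of_nonneg (by linarith)]; exact h
  · rw [abs_of_nonneg hw]; linarith
  · have key : (1 - 4 * (s + w) ^ 2) * (1 - 4 * w' ^ 2) - (1 - 4 * (s + w') ^ 2) * (1 - 4 * w ^ 2)
        = 8 * s * (w' - w) + 16 * (s * (w' - w) * (s * w' + s * w + 2 * w * w')) := by ring
    have h1 : 0 ≤ s * (w' - w) := mul_nonneg hs (by linarith)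
    have h2 : 0 ≤ s * w' + s * w + 2 * w * w' := by
      have : 0 ≤ w' := hw.trans hww
      positivity
    nlinarith [mul_nonneg h1 h2]

lemma first_moment {m : ℕ} {β : ℝ} (h0 : 0 ≤ β) (h : β ≤ 1 / 2) :
    ∫ w in (0 : ℝ)..β, w * ff m w ≤ 1 / (8 * ((m : ℝ) + 1)) := by
  have hd : ∀ w ∈ uIcc (0 : ℝ) β, HasDerivAt
      (fun w : ℝ => -((1 - 4 * w ^ 2) ^ (m + 1) / (8 * ((m : ℝ) + 1)))) (w * ff m w) w := by
    intro w _
    have e1 := ((hasDerivAt_pow 2 w).const_mul (4 : ℝ)).const_sub 1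
    have e2 := ((e1.pow (m + 1)).div_const (8 * ((m : ℝ) + 1))).neg
    refine e2.congr_deriv ?_
    unfold ff
    simp only [Nat.add_sub_cancel]
    push_cast
    field_simp
    ring
  rw [intervalIntegral.integral_eq_sub_of_hasDerivAt hd
    ((continuous_id.mul (ff_cont m)).intervalIntegrable _ _)]
  have hb : 0 ≤ (1 - 4 * β ^ 2) ^ (m + 1) / (8 * ((m : ℝ) + 1)) :=
    div_nonneg (pow_nonneg (base_nonneg (by rw [abs_of_nonneg h0]; exact h)) _) (by positivity)
  norm_num at hb ⊢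
  linarith

lemma excess {m : ℕ} (hm : 400 ≤ m) {s β : ℝ} (hs : 0 ≤ s) (hsβ : s ≤ β) (hβ : 1 / 20 ≤ β)
    (hβ' : β ≤ 1 / 2) :
    ∫ v in s..β, (v - s) * ff m v ≤ 2 / 5 / √m * ∫ v in s..β, ff m v := by
  have hm' : (400 : ℝ) ≤ m := by exact_mod_cast hm
  have hs20 : 20 ≤ √(m : ℝ) := Real.le_sqrt_of_sq_le (by norm_num; exact_mod_cast hm)
  have hspos : 0 < √(m : ℝ) := by linarith
  have hss : √(m : ℝ) * √(m : ℝ) = m := Real.mul_self_sqrt (by linarith)
  set K : ℝ := 2 / 5 / √m with hK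
  have hK0 : 0 < K := by positivity
  have hK1 : K ≤ 1 / 50 := by
    rw [hK, div_le_div_iff₀ hspos (by norm_num)]; linarith
  -- shift
  have hshift : ∫ w in (0 : ℝ)..(β - s), (w - K) * ff m (s + w) =
      (∫ v in s..β, (v - s) * ff m v) - K * ∫ v in s..β, ff m v := by
    have h1 := intervalIntegral.integral_comp_add_left (a := 0) (b := β - s)
      (fun v => (v - s - K) * ff m v) s
    simp only [add_zero, add_sub_cancel] at h1
    have h2 : (fun w : ℝ => (s + w - s - K) * ff m (s + w)) = fun w => (w - K) * ff m (s + w) := by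
      ext w; ring_nf
    rw [h2] at h1
    rw [h1, ← intervalIntegral.integral_const_mul, ← intervalIntegral.integral_sub]
    · refine intervalIntegral.integral_congr fun v _ => ?_
      ring
    · exact (((continuous_id.sub continuous_const).mul (ff_cont m))).intervalIntegrable _ _
    · exact (continuous_const.mul (ff_cont m)).intervalIntegrable _ _
  suffices hsuf : ∫ w in (0 : ℝ)..(β - s), (w - K) * ff m (s + w) ≤ 0 by linarith
  have hc1 : Continuous fun w : ℝ => (w - K) * ff m (s + w) :=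
    (continuous_id.sub continuous_const).mul ((ff_cont m).comp (continuous_const.add continuous_id))
  have hc2 : Continuous fun w : ℝ => (w - K) * ff m w :=
    (continuous_id.sub continuous_const).mul (ff_cont m)
  rcases le_or_gt (β - s) K with hc | hc
  · have : ∫ w in (0 : ℝ)..(β - s), (w - K) * ff m (s + w) ≤ ∫ _w in (0 : ℝ)..(β - s), (0 : ℝ) := by
      refine intervalIntegral.integral_mono_on (by linarith) (hc1.intervalIntegrable _ _)
        (by simp) fun w hw => ?_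
      refine mul_nonpos_of_nonpos_of_nonneg (by linarith [hw.2]) (ff_nonneg ?_)
      rw [abs_of_nonneg (by linarith [hw.1])]; linarith [hw.2]
    simpa using this
  · have hfK : 0 < ff m K := by
      unfold ff
      refine pow_pos ?_ m
      nlinarith
    set ρ : ℝ := ff m (s + K) / ff m K with hρ
    have hρ0 : 0 ≤ ρ := div_nonneg (ff_nonneg (by
      rw [abs_of_nonneg (by linarith)]; linarith)) hfK.le
    have h1 : ∫ w in (0 : ℝ)..(β - s), (w - K) * ff m (s + w) ≤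
        ∫ w in (0 : ℝ)..(β - s), ρ * ((w - K) * ff m w) := by
      refine intervalIntegral.integral_mono_on (by linarith) (hc1.intervalIntegrable _ _)
        ((continuous_const.mul hc2).intervalIntegrable _ _) fun w hw => ?_
      have hw1 := hw.1
      have hw2 := hw.2
      rcases le_total w K with hwK | hwK
      · have h3 := logc (m := m) hs hw1 hwK (by linarith)
        have h4 : ρ * ff m w ≤ ff m (s + w) := by
          rw [hρ, div_mul_eq_mul_div, div_le_iff₀ hfK]; exact h3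
        nlinarith
      · have h3 := logc (m := m) hs hK0.le hwK (by linarith)
        have h4 : ff m (s + w) ≤ ρ * ff m w := by
          rw [hρ, div_mul_eq_mul_div, le_div_iff₀ hfK]; exact h3
        nlinarith
    have h2 : ∫ w in (0 : ℝ)..(β - s), (w - K) * ff m w ≤ ∫ w in (0 : ℝ)..β, (w - K) * ff m w := by
      rw [← intervalIntegral.integral_add_adjacent_intervals (hc2.intervalIntegrable 0 (β - s))
        (hc2.intervalIntegrable (β - s) β)]
      have : 0 ≤ ∫ w in (β - s)..β, (w - K) * ff m w :=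
        intervalIntegral.integral_nonneg (by linarith) fun w hw =>
          mul_nonneg (by linarith [hw.1]) (ff_nonneg (by
            rw [abs_of_nonneg (by linarith [hw.1])]; linarith [hw.2]))
      linarith
    have h3 : ∫ w in (0 : ℝ)..β, (w - K) * ff m w ≤ 0 := by
      have e : ∫ w in (0 : ℝ)..β, (w - K) * ff m w =
          (∫ w in (0 : ℝ)..β, w * ff m w) - K * ∫ w in (0 : ℝ)..β, ff m w := by
        rw [← intervalIntegral.integral_const_mul, ← intervalIntegral.integral_sub]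
        · refine intervalIntegral.integral_congr fun v _ => ?_
          ring
        · exact (continuous_id.mul (ff_cont m)).intervalIntegrable _ _
        · exact (continuous_const.mul (ff_cont m)).intervalIntegrable _ _
      have e1 := first_moment (m := m) (β := β) (by linarith) hβ'
      have e2 := low' hm hβ hβ'
      have e3 : K * K ≤ K * ∫ w in (0 : ℝ)..β, ff m w := mul_le_mul_of_nonneg_left e2 hK0.le
      have e4 : K * K = 4 / 25 / m := by
        rw [hK, div_mul_div_comm, hss]; norm_num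
      have e5 : 1 / (8 * ((m : ℝ) + 1)) ≤ 4 / 25 / m := by
        rw [div_le_div_iff₀ (by positivity) (by linarith)]; linarith
      rw [e]; linarith
    rw [intervalIntegral.integral_const_mul] at h1
    nlinarith

lemma int_int {m : ℕ} {s β : ℝ} :
    ∫ v in s..β, (∫ u in v..β, ff m u) = ∫ v in s..β, (v - s) * ff m v := by
  have hH : ∀ v : ℝ, HasDerivAt (fun v : ℝ => ∫ u in v..β, ff m u) (-ff m v) v := fun v =>
    intervalIntegral.integral_hasDerivAt_left (ff_int m v β)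
      ((ff_cont m).stronglyMeasurableAtFilter _ _) (ff_cont m).continuousAt
  have hHc : Continuous fun v : ℝ => ∫ u in v..β, ff m u :=
    continuous_iff_continuousAt.2 fun v => (hH v).continuousAt
  have hd : ∀ v ∈ uIcc s β, HasDerivAt (fun v : ℝ => (v - s) * ∫ u in v..β, ff m u)
      ((∫ u in v..β, ff m u) - (v - s) * ff m v) v := by
    intro v _
    refine (((hasDerivAt_id v).sub_const s).mul (hH v)).congr_deriv ?_
    simp only [id]; ring
  have hc2 : Continuous fun v : ℝ => (v - s) * ff m v :=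
    (continuous_id.sub continuous_const).mul (ff_cont m)
  have h := intervalIntegral.integral_eq_sub_of_hasDerivAt hd
    ((hHc.sub hc2).intervalIntegrable _ _)
  rw [intervalIntegral.integral_sub (hHc.intervalIntegrable _ _) (hc2.intervalIntegrable _ _)] at h
  simp only [intervalIntegral.integral_same, mul_zero, sub_self, zero_mul] at h
  linarith

/-- The last claim. -/
lemma part_e {m : ℕ} (hm : 400 ≤ m) (hN : 0 < NN m) (hw0 : ∀ x, 0 ≤ wt m x) {a b : ℝ}
    (ha : 1 / 2 ≤ a) (hb : |b| ≤ 9 / 20) :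
    ∫ t in Ioi a, wt m ⟨t, b⟩ ≤ 2 / 5 / √m * wt m ⟨a, b⟩ := by
  have hbn := abs_nonneg b
  have hwt : ∀ t : ℝ, a ≤ t → wt m ⟨t, b⟩ =
      (∫ u in (t - 1 / 2)..(max (t - 1 / 2) (1 / 2 - |b|)), ff m u) / NN m := by
    intro t ht
    unfold wt
    have : |t| = t := abs_of_nonneg (by linarith)
    simp only [this]
    rfl
  rcases le_or_gt (1 / 2 - |b|) (a - 1 / 2) with hc | hc
  · have h0 : ∫ t in Ioi a, wt m ⟨t, b⟩ = 0 := by
      refine setIntegral_eq_zero_of_forall_eq_zero fun t ht => ?_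
      have ht' : a < t := ht
      rw [hwt t ht'.le, max_eq_left (by linarith), intervalIntegral.integral_same, zero_div]
    rw [h0]
    exact mul_nonneg (by positivity) (hw0 _)
  · set β : ℝ := 1 / 2 - |b| with hβ
    have h1 : ∫ t in Ioi a, wt m ⟨t, b⟩ = ∫ t in Ioc a (β + 1 / 2), wt m ⟨t, b⟩ := by
      refine setIntegral_eq_of_subset_of_forall_sdiff_eq_zero measurableSet_Ioi
        (fun t ht => ht.1) fun t ht => ?_
      have ht1 : a < t := ht.1
      have ht2 : β + 1 / 2 < t := by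
        by_contra hcon
        exact ht.2 ⟨ht1, not_lt.1 hcon⟩
      rw [hwt t ht1.le, max_eq_left (by linarith), intervalIntegral.integral_same, zero_div]
    have h2 : ∫ t in Ioc a (β + 1 / 2), wt m ⟨t, b⟩ =
        ∫ t in Ioc a (β + 1 / 2), (∫ u in (t - 1 / 2)..β, ff m u) / NN m := by
      refine setIntegral_congr_fun measurableSet_Ioc fun t ht => ?_
      rw [hwt t ht.1.le, max_eq_right (by linarith [ht.2])]
    rw [h1, h2, ← intervalIntegral.integral_of_le (by linarith), intervalIntegral.integral_div]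
    have h3 := intervalIntegral.integral_comp_sub_right (a := a) (b := β + 1 / 2)
      (fun v => ∫ u in v..β, ff m u) (1 / 2)
    rw [add_sub_cancel_right] at h3
    rw [h3, int_int, hwt a le_rfl, max_eq_right hc.le, mul_div_assoc']
    refine div_le_div_of_nonneg_right ?_ hN.le
    exact excess hm (by linarith) hc.le (by linarith) (by linarith)

/-- **C1.** The weight for large `m`. -/
theorem c1 (c0 : S_C0) : S_C1 := by
  refine ⟨fun δ hδ => ?_, ?_⟩
  · rcases lt_or_ge (1 / 2) δ with hd | hd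
    · refine ⟨1, fun m hm => ⟨fun x h1 _ => ?_, fun x h => ?_⟩⟩
      · have := abs_nonneg x.re; linarith
      · obtain ⟨hN, -, hw0, -, hD, -⟩ := c0 m hm
        have hx : x ∉ DD := by
          intro hx
          have h1 : |x.re| + |x.im| < 1 := hx
          have h2 := abs_nonneg x.re
          have h3 := abs_nonneg x.im
          rcases h with h | h <;> linarith
        rw [← hD] at hx
        have : wt m x ≤ 0 := not_lt.1 hx
        linarith
    · have hr0 : 0 ≤ 1 - 4 * δ ^ 2 := base_nonneg (by rw [abs_of_pos hδ]; exact hd)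
      have hr1 : 1 - 4 * δ ^ 2 < 1 := by nlinarith
      obtain ⟨m₀, hm₀, h⟩ := small hr0 hr1 hδ
      refine ⟨m₀, fun m hm => ?_⟩
      obtain ⟨hN, -, hw0, -, -, -, -, hsym, -⟩ := c0 m (by omega)
      refine ⟨fun x h1 h2 => part_a hN hδ (h m hm) h1 h2, fun x hx => ?_⟩
      have hs : |1 - 4 * δ ^ 2| ^ m ≤ δ * NN m := by rw [abs_of_nonneg hr0]; exact h m hm
      rcases hx with hx | hx
      · exact part_b hN hδ hs hx
      · have e := hsym x.re x.im
        have e2 : (⟨x.re, x.im⟩ : ℂ) = x := rfl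
        rw [e2] at e
        rw [← e]
        exact part_b hN hδ hs hx
  · obtain ⟨m₀, hm₀, h⟩ := small (r := 1 - 4 * (1 / 10) ^ 2) (by norm_num) (by norm_num)
      (η := 1 / 100) (by norm_num)
    refine ⟨max m₀ 2500, fun m hm => ?_⟩
    have hm1 : m₀ ≤ m := (le_max_left _ _).trans hm
    have hm2 : 2500 ≤ m := (le_max_right _ _).trans hm
    have hm3 : 400 ≤ m := by omega
    have hm' : (2500 : ℝ) ≤ m := by exact_mod_cast hm2
    have hs20 : 50 ≤ √(m : ℝ) := Real.le_sqrt_of_sq_le (by norm_num; exact_mod_cast hm2)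
    obtain ⟨hN, -, hw0, -⟩ := c0 m (by omega)
    have hsm := h m hm1
    refine ⟨fun x h1 h2 => ?_, fun x h1 h2 => ?_, fun a b ha hb => part_e hm3 hN hw0 ha hb⟩
    · have hc := part_c (m := m) hN (η := 0) le_rfl (by norm_num) (x := x) (by linarith) h2
      refine le_trans ?_ hc
      have : (0 + 1 / 2 * (1 - 4 * (1 / 10) ^ 2) ^ m) / NN m ≤ 1 / 100 := by
        rw [div_le_iff₀ hN]; linarith
      linarith
    · have hη0 : 0 ≤ 3 / 20 / √(m : ℝ) := by positivity
      have hη1 : 3 / 20 / √(m : ℝ) ≤ 1 / 10 := by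
        rw [div_le_div_iff₀ (by linarith) (by norm_num)]; linarith
      have hc := part_c (m := m) hN hη0 hη1 (x := x) h1 h2
      refine le_trans ?_ hc
      have hNl := NN_low hm3
      have e1 : 3 / 20 / √(m : ℝ) ≤ 3 / 16 * NN m := by
        have : 3 / 20 / √(m : ℝ) = 3 / 16 * (4 / 5 / √(m : ℝ)) := by ring
        rw [this]; linarith
      have : (3 / 20 / √(m : ℝ) + 1 / 2 * (1 - 4 * (1 / 10) ^ 2) ^ m) / NN m ≤ 1 / 5 := by
        rw [div_le_iff₀ hN]; linarith
      linarith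

end Pool.Agent.TH527.HU
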